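import Mathlib

namespace H11.Pat

variable {A X : Type}

/-- A pattern is a word over constants (`inl a`, `a` in the alphabet) and variables (`inr x`).
`w` encounters `p` if some non-erasing substitution fixing the constants sends `p` to a factor
of `w`. -/
def Encounters (w : List A) (p : List (A ⊕ X)) : Prop :=
  ∃ h : X → List A, (∀ x, h x ≠ []) ∧ p.flatMap (Sum.elim (fun a => [a]) h) <:+: w

/-- `u` is maximal `p`-free. -/
def MaximalFree (p : List (A ⊕ X)) (u : List A) : Prop :=
  ¬ Encounters u p ∧ ∀ a b : A, Encounters (a :: (u ++ [b])) p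

theorem strip (c a b : A) (ha : a ≠ c) (hb : b ≠ c) (m u f : List A)
    (h1 : f.head? = some a) (h2 : f.getLast? = some b) (h : f <:+: c :: (u ++ [c])) :
    f <:+: u := by
  rcases List.infix_cons_iff.1 h with h | h
  · obtain ⟨t, ht⟩ := h
    rcases f with _ | ⟨x, f⟩
    · simp at h1
    · simp only [List.head?_cons, Option.some.injEq] at h1
      simp only [List.cons_append, List.cons.injEq] at ht
      exact absurd (h1.symm.trans ht.1) ha
  · rcases List.infix_concat_iff.1 h with h | h
    · obtain ⟨t, ht⟩ := h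
      have := congrArg List.getLast? ht
      rw [List.getLast?_append, h2] at this
      simp at this
      exact absurd this hb
    · exact h

theorem none_maximal (c a b : A) (ha : a ≠ c) (hb : b ≠ c) (p : List (A ⊕ X))
    (h1 : p.head? = some (Sum.inl a)) (h2 : p.getLast? = some (Sum.inl b)) (u : List A) :
    ¬ MaximalFree p u := by
  rintro ⟨hu, hm⟩
  obtain ⟨h, hne, hf⟩ := hm c c
  refine hu ⟨h, hne, strip c a b ha hb [] u _ ?_ ?_ hf⟩
  · rcases p with _ | ⟨x, p⟩
    · simp at h1
    · simp only [List.head?_cons, Option.some.injEq] at h1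
      subst h1
      simp
  · obtain ⟨q, rfl⟩ : ∃ q, p = q ++ [Sum.inl b] := by
      rcases List.eq_nil_or_concat p with rfl | ⟨q, x, rfl⟩
      · simp at h2
      · refine ⟨q, ?_⟩
        simp at h2
        simp [h2]
    simp

end H11.Pat

namespace Pool.Agent.Results.MP_2432f5_co.Constants

open H11.Pat

theorem result :
    (∀ (A X : Type) (p : List (A ⊕ X)) (a b c : A), a ≠ c → b ≠ c →
      p.head? = some (Sum.inl a) → p.getLast? = some (Sum.inl b) → ∀ u, ¬ MaximalFree p u) ∧
    ¬ ∀ (A X : Type) [Fintype A] [Fintype X] (p : List (A ⊕ X)), p ≠ [] → ∀ w : List A, ¬ Encounters w p →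
      ∃ u, MaximalFree p u ∧ w <:+: u := by
  refine ⟨fun A X p a b c ha hb h1 h2 u => none_maximal c a b ha hb p h1 h2 u, fun H => ?_⟩
  obtain ⟨u, hu, -⟩ := H Bool Unit
    [Sum.inl true, Sum.inr (), Sum.inr (), Sum.inl true] (by simp) [] (by
      rintro ⟨h, -, hf⟩
      simp at hf)
  exact none_maximal false true true (by simp) (by simp) _ rfl rfl u hu

end Pool.Agent.Results.MP_2432f5_co.Constants
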